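import Pool.Agent.RDO.Stmts

/-!
# Row ROT of the squad RDO (helper84): the angular measure depends only on the length
-/

set_option autoImplicit false

open MeasureTheory Module Submodule
open scoped ENNReal Pointwise

namespace Pool.Agent.RDO.H84

/-- the polar form of the inner product -/
lemma inner_ev (w : P2) : ∃ φ : ℝ, ∀ θ : ℝ, (inner ℝ w (ev θ) : ℝ) = ‖w‖ * Real.cos (θ - φ) := by
  let z : ℂ := ⟨w 0, w 1⟩
  have hz : ‖z‖ = ‖w‖ := by
    rw [Complex.norm_def, Complex.normSq_apply, EuclideanSpace.norm_eq]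
    congr 1
    simp [z, Fin.sum_univ_two, sq]
  refine ⟨Complex.arg z, fun θ => ?_⟩
  have h1 : ‖z‖ * Real.cos (Complex.arg z) = w 0 := Complex.norm_mul_cos_arg z
  have h2 : ‖z‖ * Real.sin (Complex.arg z) = w 1 := Complex.norm_mul_sin_arg z
  have h3 : (inner ℝ w (ev θ) : ℝ) = w 0 * Real.cos θ + w 1 * Real.sin θ := by
    simp [ev, PiLp.inner_apply, Fin.sum_univ_two]
    ring
  rw [h3, ← h1, ← h2, ← hz, Real.cos_sub]
  ring

/-- the measure of a periodic set in a period does not depend on the period -/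
lemma measure_period (A : Set ℝ) (hA : MeasurableSet A) (T : ℝ) (hT : 0 < T)
    (hp : ∀ x, x + T ∈ A ↔ x ∈ A) (s t : ℝ) :
    volume (A ∩ Set.Ioc s (s + T)) = volume (A ∩ Set.Ioc t (t + T)) := by
  have hinv : VAddInvariantMeasure (AddSubgroup.zmultiples T) ℝ volume :=
    ⟨fun c s _ => measure_preimage_add _ _ _⟩
  refine IsAddFundamentalDomain.measure_set_eq (G := AddSubgroup.zmultiples T)
    (isAddFundamentalDomain_Ioc hT s) (isAddFundamentalDomain_Ioc hT t) hA ?_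
  have hn : ∀ (n : ℤ) (x : ℝ), x + n • T ∈ A ↔ x ∈ A := by
    intro n
    induction n using Int.induction_on with
    | zero => intro x; simp
    | succ n ih =>
      intro x
      rw [add_zsmul, one_zsmul, ← add_assoc, hp, ih]
    | pred n ih =>
      intro x
      rw [← hp, sub_zsmul, one_zsmul, add_assoc, neg_add_cancel_right, ih]
  rintro ⟨g, hg⟩
  obtain ⟨n, rfl⟩ := AddSubgroup.mem_zmultiples_iff.1 hg
  ext x
  have := hn n x
  simp only [Set.mem_preimage]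
  rw [← this, add_comm]
  rfl

theorem rot : RotStmt := by
  intro q w
  obtain ⟨φ, hφ⟩ := inner_ev w
  let A : Set ℝ := {θ : ℝ | q ≤ ‖w‖ * Real.cos θ}
  have hA : MeasurableSet A :=
    measurableSet_le measurable_const (by fun_prop)
  have hp : ∀ x, x + 2 * Real.pi ∈ A ↔ x ∈ A := by
    intro x
    show q ≤ ‖w‖ * Real.cos (x + 2 * Real.pi) ↔ q ≤ ‖w‖ * Real.cos x
    rw [Real.cos_add_two_pi]
  have h1 : {θ : ℝ | θ ∈ Set.Ioc 0 (2 * Real.pi) ∧ q ≤ inner ℝ w (ev θ)} =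
      (fun θ => θ + (-φ)) ⁻¹' (A ∩ Set.Ioc (-φ) (-φ + 2 * Real.pi)) := by
    ext θ
    show (θ ∈ Set.Ioc 0 (2 * Real.pi) ∧ q ≤ inner ℝ w (ev θ)) ↔
      (q ≤ ‖w‖ * Real.cos (θ + (-φ)) ∧ θ + (-φ) ∈ Set.Ioc (-φ) (-φ + 2 * Real.pi))
    rw [hφ θ, ← sub_eq_add_neg]
    constructor
    · rintro ⟨⟨h1, h2⟩, h3⟩
      exact ⟨h3, by constructor <;> linarith⟩
    · rintro ⟨h3, h1, h2⟩
      exact ⟨⟨by linarith, by linarith⟩, h3⟩
  have h2 : {θ : ℝ | θ ∈ Set.Ioc 0 (2 * Real.pi) ∧ q ≤ ‖w‖ * Real.cos θ} =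
      A ∩ Set.Ioc 0 (0 + 2 * Real.pi) := by
    ext θ
    show (θ ∈ Set.Ioc 0 (2 * Real.pi) ∧ q ≤ ‖w‖ * Real.cos θ) ↔
      (q ≤ ‖w‖ * Real.cos θ ∧ θ ∈ Set.Ioc 0 (0 + 2 * Real.pi))
    rw [zero_add]
    exact and_comm
  rw [h1, h2, measure_preimage_add_right]
  exact measure_period A hA _ Real.two_pi_pos hp _ _

end Pool.Agent.RDO.H84
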